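import Pool.Agent.Lib.MP_1e50ba_an.Series

set_option autoImplicit false

namespace Pool.Agent.Results.MP_1e50ba_an.CantorSet

/-- The achievement set of `x_{2n-1} = 1/2^{2n-1}`, `x_{2n} = 1/(2^{2n}+1)` (`n ≥ 1`) is a
Cantor set. -/
theorem result (x : ℕ → ℝ)
    (hodd : ∀ n : ℕ, 1 ≤ n → x (2 * n - 1) = 1 / 2 ^ (2 * n - 1))
    (heven : ∀ n : ℕ, 1 ≤ n → x (2 * n) = 1 / (2 ^ (2 * n) + 1)) :
    Nonempty ({y : ℝ | ∃ A : Set ℕ, 0 ∉ A ∧ y = ∑' n : A, x n} ≃ₜ cantorSet) :=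
  Pool.Agent.Lib.MP_1e50ba_an.main x hodd heven

end Pool.Agent.Results.MP_1e50ba_an.CantorSet
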